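import Pool.Agent.T9h87.Lin.Spec

/-!
# One separation step
-/

set_option autoImplicit false

namespace Pool.Agent.T9h46.Lin

open Finset Pool.Agent.T9h87.Lin
open scoped Classical

/-- general position: at most four points are lost -/
lemma lose {n : ℕ} {g : Fin 7 × Fin n → V4} (hg : GP g) (l : V4 →ₗ[ℝ] ℝ) (c : ℝ) (hl : l ≠ 0)
    (k : Fin 7) (Y : Finset (Fin n)) :
    (Y.filter (fun a => l (g (k, a)) ≤ c)).card ≤
      (Y.filter (fun a => l (g (k, a)) < c)).card + 4 := by
  have h1 : Y.filter (fun a => l (g (k, a)) ≤ c) ⊆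
      Y.filter (fun a => l (g (k, a)) < c) ∪ Y.filter (fun a => l (g (k, a)) = c) := by
    intro a ha
    rw [mem_filter] at ha
    rw [mem_union, mem_filter, mem_filter]
    rcases ha.2.lt_or_eq with h | h
    · exact .inl ⟨ha.1, h⟩
    · exact .inr ⟨ha.1, h⟩
  have h2 : (Y.filter (fun a => l (g (k, a)) = c)).card ≤ 4 := by
    have h3 := hg l c hl ((Y.filter (fun a => l (g (k, a)) = c)).map
      ⟨fun a => (k, a), fun a b h => (Prod.mk.inj h).2⟩) (by
        intro i hi
        obtain ⟨a, ha, rfl⟩ := mem_map.1 hi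
        exact (mem_filter.1 ha).2)
    rwa [card_map] at h3
  have h3 := card_le_card h1
  have h4 := card_union_le (Y.filter (fun a => l (g (k, a)) < c))
    (Y.filter (fun a => l (g (k, a)) = c))
  omega

/-- the same for the other side -/
lemma lose' {n : ℕ} {g : Fin 7 × Fin n → V4} (hg : GP g) (l : V4 →ₗ[ℝ] ℝ) (c : ℝ) (hl : l ≠ 0)
    (k : Fin 7) (Y : Finset (Fin n)) :
    (Y.filter (fun a => c ≤ l (g (k, a)))).card ≤
      (Y.filter (fun a => c < l (g (k, a)))).card + 4 := by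
  have h := lose hg (-l) (-c) (neg_ne_zero.2 hl) k Y
  simpa only [LinearMap.neg_apply, neg_le_neg_iff, neg_lt_neg_iff] using h

/-- a hyperplane through at most four points -/
lemma exists_plane (R : Finset (Fin 7)) (hR : R.card ≤ 4) (hR0 : R.Nonempty) (z : Fin 7 → V4) :
    ∃ (l : V4 →ₗ[ℝ] ℝ) (c : ℝ), l ≠ 0 ∧ ∀ k ∈ R, l (z k) = c := by
  let L : ((V4 →ₗ[ℝ] ℝ) × ℝ) →ₗ[ℝ] (R → ℝ) :=
    { toFun := fun p k => p.1 (z k) - p.2
      map_add' := by
        intro a b; funext k
        simp only [Prod.fst_add, Prod.snd_add, LinearMap.add_apply, Pi.add_apply]; ring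
      map_smul' := by
        intro r a; funext k
        simp only [Prod.smul_fst, Prod.smul_snd, LinearMap.smul_apply, Pi.smul_apply, smul_eq_mul,
          RingHom.id_apply]; ring }
  have hlt : Module.finrank ℝ (R → ℝ) < Module.finrank ℝ ((V4 →ₗ[ℝ] ℝ) × ℝ) := by
    rw [Module.finrank_prod, Module.finrank_self, Module.finrank_linearMap,
      Module.finrank_fintype_fun_eq_card, Module.finrank_fintype_fun_eq_card, Fintype.card_coe,
      Module.finrank_self]
    simp only [Fintype.card_fin]; omega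
  obtain ⟨p, hp, hp0⟩ := (Submodule.ne_bot_iff _).mp
    (LinearMap.ker_ne_bot_of_finrank_lt hlt : LinearMap.ker L ≠ ⊥)
  rw [LinearMap.mem_ker] at hp
  have h1 : ∀ k ∈ R, p.1 (z k) = p.2 := by
    intro k hk
    have := congrFun hp ⟨k, hk⟩
    exact sub_eq_zero.1 this
  refine ⟨p.1, p.2, fun h0 => hp0 ?_, h1⟩
  obtain ⟨k, hk⟩ := hR0
  have h2 := h1 k hk
  rw [h0, LinearMap.zero_apply] at h2
  exact Prod.ext h0 h2.symm

/-- the sets of the separation step -/
noncomputable def Yn {n : ℕ} (g : Fin 7 × Fin n → V4) (Y : Fin 7 → Finset (Fin n))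
    (I J : Finset (Fin 7)) (l : V4 →ₗ[ℝ] ℝ) (c : ℝ) (k : Fin 7) : Finset (Fin n) :=
  if k ∈ I then (Y k).filter (fun a => l (g (k, a)) < c)
  else if k ∈ J then (Y k).filter (fun a => c < l (g (k, a))) else Y k

lemma sep_Yn {n : ℕ} (g : Fin 7 × Fin n → V4) (Y : Fin 7 → Finset (Fin n))
    (I J : Finset (Fin 7)) (hd : Disjoint I J) (l : V4 →ₗ[ℝ] ℝ) (c : ℝ) :
    Sep g (Yn g Y I J l c) I J := by
  refine ⟨l, c, fun k hk a ha => ?_, fun k hk a ha => ?_⟩
  · rw [Yn, if_pos hk, mem_filter] at ha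
    exact ha.2
  · rw [Yn, if_neg (disjoint_right.1 hd hk), if_pos hk, mem_filter] at ha
    exact ha.2

lemma Yn_sub {n : ℕ} (g : Fin 7 × Fin n → V4) (Y : Fin 7 → Finset (Fin n))
    (I J : Finset (Fin 7)) (l : V4 →ₗ[ℝ] ℝ) (c : ℝ) (k : Fin 7) : Yn g Y I J l c k ⊆ Y k := by
  unfold Yn
  split_ifs
  · exact filter_subset _ _
  · exact filter_subset _ _
  · exact Subset.rfl

/-- the step if the closed sides are large -/
lemma step_of {n : ℕ} {g : Fin 7 × Fin n → V4} (hg : GP g) (Y : Fin 7 → Finset (Fin n))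
    (I J : Finset (Fin 7)) (hd : Disjoint I J) (l : V4 →ₗ[ℝ] ℝ) (c : ℝ) (hl : l ≠ 0)
    (h1 : ∀ k ∈ I, (Y k).card ≤ 5 * ((Y k).filter (fun a => l (g (k, a)) ≤ c)).card)
    (h2 : ∀ k ∈ J, (Y k).card ≤ 5 * ((Y k).filter (fun a => c ≤ l (g (k, a)))).card) :
    ∃ Y' : Fin 7 → Finset (Fin n), (∀ k, Y' k ⊆ Y k) ∧ (∀ k, (Y k).card ≤ 5 * (Y' k).card + 20) ∧
      Sep g Y' I J := by
  refine ⟨Yn g Y I J l c, Yn_sub g Y I J l c, fun k => ?_, sep_Yn g Y I J hd l c⟩
  unfold Yn
  split_ifs with hk hk'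
  · have := h1 k hk; have := lose hg l c hl k (Y k); omega
  · have := h2 k hk'; have := lose' hg l c hl k (Y k); omega
  · omega

lemma two_sides {n : ℕ} (Y : Finset (Fin n)) (f : Fin n → ℝ) (c : ℝ) :
    Y.card ≤ 5 * (Y.filter (fun a => f a ≤ c)).card ∨
      Y.card ≤ 5 * (Y.filter (fun a => c ≤ f a)).card := by
  have h1 : Y ⊆ Y.filter (fun a => f a ≤ c) ∪ Y.filter (fun a => c ≤ f a) := by
    intro a ha
    rw [mem_union, mem_filter, mem_filter]
    rcases le_total (f a) c with h | h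
    · exact .inl ⟨ha, h⟩
    · exact .inr ⟨ha, h⟩
  have h2 := card_le_card h1
  have h3 := card_union_le (Y.filter (fun a => f a ≤ c)) (Y.filter (fun a => c ≤ f a))
  omega

/-- (C) one separation step from centre points -/
theorem stStep (hA : StCenter) : StStep := by
  intro n g hg Y I J hd hc
  by_cases h0 : (I ∪ J).Nonempty
  swap
  · rw [not_nonempty_iff_eq_empty, union_eq_empty] at h0
    obtain ⟨rfl, rfl⟩ := h0
    exact ⟨Y, fun k => Subset.rfl, fun k => by omega, 0, 0, by simp, by simp⟩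
  obtain ⟨k0, hk0⟩ := h0
  by_cases hR0 : ((I ∪ J).erase k0).Nonempty
  swap
  · -- one cluster
    rw [not_nonempty_iff_eq_empty] at hR0
    have h1 : ∀ k ∈ I ∪ J, k = k0 := by
      intro k hk
      by_contra h
      have : k ∈ (I ∪ J).erase k0 := mem_erase.2 ⟨h, hk⟩
      rw [hR0] at this
      exact absurd this (notMem_empty _)
    refine ⟨Y, fun k => Subset.rfl, fun k => by omega, 0, if k0 ∈ I then 1 else -1, ?_, ?_⟩
    · intro k hk a _
      rw [h1 k (mem_union_left _ hk)] at hk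
      rw [if_pos hk, LinearMap.zero_apply]; norm_num
    · intro k hk a _
      rw [h1 k (mem_union_right _ hk)] at hk
      rw [if_neg (disjoint_right.1 hd hk), LinearMap.zero_apply]; norm_num
  have hRc : ((I ∪ J).erase k0).card ≤ 4 := by
    rw [card_erase_of_mem hk0, card_union_of_disjoint hd]; omega
  choose z hz using fun k : Fin 7 => hA (Fin n) (Y k) (fun a => g (k, a))
  obtain ⟨l, c, hl, hlc⟩ := exists_plane _ hRc hR0 z
  have hle : ∀ k ∈ (I ∪ J).erase k0,
      (Y k).card ≤ 5 * ((Y k).filter (fun a => l (g (k, a)) ≤ c)).card := by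
    intro k hk
    rw [← hlc k hk]; exact hz k l
  have hge : ∀ k ∈ (I ∪ J).erase k0,
      (Y k).card ≤ 5 * ((Y k).filter (fun a => c ≤ l (g (k, a)))).card := by
    intro k hk
    have := hz k (-l)
    rw [← hlc k hk]
    simpa only [LinearMap.neg_apply, neg_le_neg_iff] using this
  have hd' := disjoint_left.1 hd
  have hle' : ∀ k ∈ (I ∪ J).erase k0,
      (Y k).card ≤ 5 * ((Y k).filter (fun a => (-l) (g (k, a)) ≤ -c)).card := by
    intro k hk
    simpa only [LinearMap.neg_apply, neg_le_neg_iff] using hge k hk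
  have hge' : ∀ k ∈ (I ∪ J).erase k0,
      (Y k).card ≤ 5 * ((Y k).filter (fun a => -c ≤ (-l) (g (k, a)))).card := by
    intro k hk
    simpa only [LinearMap.neg_apply, neg_le_neg_iff] using hle k hk
  rcases mem_union.1 hk0 with hI | hJ
  · rcases two_sides (Y k0) (fun a => l (g (k0, a))) c with h | h
    · refine step_of hg Y I J hd l c hl (fun k hk => ?_) (fun k hk => ?_)
      · by_cases e : k = k0
        · rw [e]; exact h
        · exact hle k (mem_erase.2 ⟨e, mem_union_left _ hk⟩)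
      · exact hge k (mem_erase.2 ⟨fun e => hd' hI (e ▸ hk), mem_union_right _ hk⟩)
    · refine step_of hg Y I J hd (-l) (-c) (neg_ne_zero.2 hl) (fun k hk => ?_) (fun k hk => ?_)
      · by_cases e : k = k0
        · rw [e]; simpa only [LinearMap.neg_apply, neg_le_neg_iff] using h
        · exact hle' k (mem_erase.2 ⟨e, mem_union_left _ hk⟩)
      · exact hge' k (mem_erase.2 ⟨fun e => hd' hI (e ▸ hk), mem_union_right _ hk⟩)
  · rcases two_sides (Y k0) (fun a => l (g (k0, a))) c with h | h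
    · refine step_of hg Y I J hd (-l) (-c) (neg_ne_zero.2 hl) (fun k hk => ?_) (fun k hk => ?_)
      · exact hle' k (mem_erase.2 ⟨fun e => hd' (e ▸ hk) hJ, mem_union_left _ hk⟩)
      · by_cases e : k = k0
        · rw [e]; simpa only [LinearMap.neg_apply, neg_le_neg_iff] using h
        · exact hge' k (mem_erase.2 ⟨e, mem_union_right _ hk⟩)
    · refine step_of hg Y I J hd l c hl (fun k hk => ?_) (fun k hk => ?_)
      · exact hle k (mem_erase.2 ⟨fun e => hd' (e ▸ hk) hJ, mem_union_left _ hk⟩)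
      · by_cases e : k = k0
        · rw [e]; exact h
        · exact hge k (mem_erase.2 ⟨e, mem_union_right _ hk⟩)

end Pool.Agent.T9h46.Lin
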